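import Pool.Agent.Helper41.LD3.Defs
import Pool.Agent.Helper8.LD2.NB2

/-!
# Project LD3, block LIN, windows without cell boundaries for linear functions
-/

set_option autoImplicit false

namespace Pool.Agent.Helper8.LD3

open Set MeasureTheory Filter Topology
open Pool.Agent.Helper41.LD (av var ind haar idx DiscLe Dioph)
open Pool.Agent.Helper41.LD2 (A M W Pot NB Wd EqA)
open Pool.Agent.Helper41.LD3

variable {U : ℕ → ℝ → ℝ} {β : ℝ} {y c : ℕ → ℝ}

lemma geo_le (hy : Geo y β) {j m : ℕ} (h : j ≤ m) : y j ≤ β⁻¹ ^ (m - j) * y m := by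
  have hβ := hy.hβ
  have hβ0 : 0 < β := by linarith
  induction m, h using Nat.le_induction with
  | base => simp
  | succ m h ih =>
    have h1 := hy.grow m
    have h2 : y m ≤ β⁻¹ * y (m + 1) := by
      rw [inv_mul_eq_div, le_div_iff₀ hβ0]
      linarith
    have h3 : m + 1 - j = (m - j) + 1 := by omega
    rw [h3, pow_succ]
    calc y j ≤ β⁻¹ ^ (m - j) * y m := ih
      _ ≤ β⁻¹ ^ (m - j) * (β⁻¹ * y (m + 1)) := mul_le_mul_of_nonneg_left h2 (by positivity)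
      _ = _ := by ring

lemma geom_le (hβ : 1 < β) (n r : ℕ) (hr : r < n) : ∑ j ∈ Finset.range (n - r), β⁻¹ ^ (n - 1 - j) ≤ β / (β - 1) * β⁻¹ ^ r := by
  have hβ0 : 0 < β := by linarith
  have hβ1 : 0 < β - 1 := by linarith
  have hq0 : 0 < β⁻¹ := by positivity
  have hq1 : β⁻¹ < 1 := inv_lt_one_of_one_lt₀ hβ
  have h1 : ∑ j ∈ Finset.range (n - r), β⁻¹ ^ (n - 1 - j) = ∑ i ∈ Finset.range (n - r), β⁻¹ ^ (r + i) := by
    rw [← Finset.sum_range_reflect (fun i => β⁻¹ ^ (r + i)) (n - r)]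
    refine Finset.sum_congr rfl fun j hj => ?_
    rw [Finset.mem_range] at hj
    congr 1
    omega
  have h2 : ∑ i ∈ Finset.range (n - r), β⁻¹ ^ (r + i) = β⁻¹ ^ r * ∑ i ∈ Finset.range (n - r), β⁻¹ ^ i := by
    rw [Finset.mul_sum]
    exact Finset.sum_congr rfl fun i _ => pow_add _ _ _
  have h3 : ∑ i ∈ Finset.range (n - r), β⁻¹ ^ i ≤ β / (β - 1) := by
    have h4 := mul_neg_geom_sum β⁻¹ (n - r)
    have h5 : 1 - β⁻¹ = (β - 1) / β := by field_simp
    have h6 : (1 - β⁻¹) * ∑ i ∈ Finset.range (n - r), β⁻¹ ^ i ≤ 1 := by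
      rw [h4]
      have : 0 ≤ β⁻¹ ^ (n - r) := by positivity
      linarith
    rw [h5] at h6
    rw [le_div_iff₀ hβ1]
    rw [div_mul_eq_mul_div, div_le_one hβ0] at h6
    linarith
  rw [h1, h2]
  calc β⁻¹ ^ r * ∑ i ∈ Finset.range (n - r), β⁻¹ ^ i ≤ β⁻¹ ^ r * (β / (β - 1)) := mul_le_mul_of_nonneg_left h3 (by positivity)
    _ = _ := mul_comm _ _

open Classical in
theorem lin_nb (hy : Geo y β) {a ℓ : ℝ} (hℓ : 0 < ℓ) {B : ℕ} (hB : 1 ≤ B) {n r K : ℕ} (hn : ∀ j < n, y j * (ℓ / B) ≤ 1) :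
    (((Finset.range B).filter fun b : ℕ => ¬ NB (lin y c) n r K (a + b * (ℓ / B)) (ℓ / B)).card : ℝ) ≤
      2 ^ K * (β / (β - 1)) * β⁻¹ ^ r * B + n := by
  have hβ := hy.hβ
  have hβ0 : 0 < β := by linarith
  have hβ1 : 0 < β - 1 := by linarith
  have hB0 : (0 : ℝ) < B := by exact_mod_cast hB
  have hδ : 0 < ℓ / B := by positivity
  have hmono : ∀ j : ℕ, Monotone (lin y c j) := by
    intro j x z hxz
    unfold lin
    have := mul_le_mul_of_nonneg_left hxz (hy.pos j).le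
    linarith
  rcases Nat.lt_or_ge r n with hr | hr
  swap
  · have h0 : ((Finset.range B).filter fun b : ℕ => ¬ NB (lin y c) n r K (a + b * (ℓ / B)) (ℓ / B)) = ∅ := by
      refine Finset.filter_eq_empty_iff.2 fun b _ hb => hb ?_
      intro j hj
      omega
    rw [h0, Finset.card_empty, Nat.cast_zero]
    positivity
  have hsub : ((Finset.range B).filter fun b : ℕ => ¬ NB (lin y c) n r K (a + b * (ℓ / B)) (ℓ / B)) ⊆
      (Finset.range (n - r)).biUnion fun j => (Finset.range B).filter fun b : ℕ =>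
        ⌊(2 : ℝ) ^ K * lin y c j (a + b * (ℓ / B))⌋ < ⌊(2 : ℝ) ^ K * lin y c j (a + (b + 1 : ℕ) * (ℓ / B))⌋ := by
    intro b hb
    rw [Finset.mem_filter] at hb
    obtain ⟨hb1, hb2⟩ := hb
    unfold NB at hb2
    push Not at hb2
    obtain ⟨j, hj, x, hx, hne⟩ := hb2
    rw [Finset.mem_biUnion]
    refine ⟨j, Finset.mem_range.2 (by omega), Finset.mem_filter.2 ⟨hb1, ?_⟩⟩
    have h2K : (0 : ℝ) ≤ 2 ^ K := by positivity
    have h1 : ⌊(2 : ℝ) ^ K * lin y c j (a + b * (ℓ / B))⌋ ≤ ⌊(2 : ℝ) ^ K * lin y c j x⌋ :=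
      Int.floor_le_floor (mul_le_mul_of_nonneg_left (hmono j hx.1) h2K)
    have h2 : ⌊(2 : ℝ) ^ K * lin y c j x⌋ ≤ ⌊(2 : ℝ) ^ K * lin y c j (a + (b + 1 : ℕ) * (ℓ / B))⌋ := by
      refine Int.floor_le_floor (mul_le_mul_of_nonneg_left (hmono j ?_) h2K)
      have h3 : a + ((b + 1 : ℕ) : ℝ) * (ℓ / B) = a + b * (ℓ / B) + ℓ / B := by
        push_cast
        ring
      rw [h3]
      exact hx.2
    exact (lt_of_le_of_ne h1 (Ne.symm hne)).trans_le h2
  have hone : ∀ j ∈ Finset.range (n - r), (((Finset.range B).filter fun b : ℕ =>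
      ⌊(2 : ℝ) ^ K * lin y c j (a + b * (ℓ / B))⌋ < ⌊(2 : ℝ) ^ K * lin y c j (a + (b + 1 : ℕ) * (ℓ / B))⌋).card : ℝ) ≤
      2 ^ K * B * β⁻¹ ^ (n - 1 - j) + 1 := by
    intro j hj
    rw [Finset.mem_range] at hj
    have h1 := Pool.Agent.Helper8.LD2.card_mono hℓ ((hmono j).monotoneOn (Icc a (a + ℓ))) K hB
    refine h1.trans ?_
    have h2 : lin y c j (a + ℓ) - lin y c j a = y j * ℓ := by
      unfold lin
      ring
    rw [h2]
    have h3 : y j * ℓ ≤ B * β⁻¹ ^ (n - 1 - j) := by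
      have h4 := geo_le hy (show j ≤ n - 1 by omega)
      have h5 := hn (n - 1) (by omega)
      have h6 : y (n - 1) * ℓ ≤ B := by
        rw [← mul_div_assoc, div_le_one hB0] at h5
        exact h5
      calc y j * ℓ ≤ (β⁻¹ ^ (n - 1 - j) * y (n - 1)) * ℓ := mul_le_mul_of_nonneg_right h4 hℓ.le
        _ = β⁻¹ ^ (n - 1 - j) * (y (n - 1) * ℓ) := by ring
        _ ≤ β⁻¹ ^ (n - 1 - j) * B := mul_le_mul_of_nonneg_left h6 (by positivity)
        _ = _ := mul_comm _ _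
    have h4 := mul_le_mul_of_nonneg_left h3 (by positivity : (0 : ℝ) ≤ 2 ^ K)
    linarith
  have hcard : (((Finset.range B).filter fun b : ℕ => ¬ NB (lin y c) n r K (a + b * (ℓ / B)) (ℓ / B)).card : ℝ) ≤
      ∑ j ∈ Finset.range (n - r), (2 ^ K * B * β⁻¹ ^ (n - 1 - j) + 1) := by
    have h1 := (Finset.card_le_card hsub).trans Finset.card_biUnion_le
    calc _ ≤ ((∑ j ∈ Finset.range (n - r), ((Finset.range B).filter fun b : ℕ =>
        ⌊(2 : ℝ) ^ K * lin y c j (a + b * (ℓ / B))⌋ < ⌊(2 : ℝ) ^ K * lin y c j (a + (b + 1 : ℕ) * (ℓ / B))⌋).card : ℕ) : ℝ) := by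
          exact_mod_cast h1
      _ ≤ _ := by
          rw [Nat.cast_sum]
          exact Finset.sum_le_sum hone
  refine hcard.trans ?_
  rw [Finset.sum_add_distrib]
  refine add_le_add ?_ ?_
  · rw [← Finset.mul_sum]
    calc 2 ^ K * B * ∑ j ∈ Finset.range (n - r), β⁻¹ ^ (n - 1 - j) ≤ 2 ^ K * B * (β / (β - 1) * β⁻¹ ^ r) :=
          mul_le_mul_of_nonneg_left (geom_le hβ n r hr) (by positivity)
      _ = _ := by ring
  · rw [Finset.sum_const, Finset.card_range, nsmul_eq_mul, mul_one]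
    exact_mod_cast Nat.sub_le n r

end Pool.Agent.Helper8.LD3
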